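import Pool.Agent.Helper55.PC.Base

/-!
# MP_cf7fa9_pr, block B2: `leg_survive`

The zig-zag (hysteresis) machine and its potential.
-/

set_option autoImplicit false

namespace Pool.Agent.Helper55.PC

open Finset
open scoped Classical

namespace B2

/-- State of the zig-zag machine: direction of the leg, anchor, running extremum, position. -/
structure St where
  up : Bool
  A : ℤ
  E : ℤ
  C : ℤ

/-- height of the leg -/
def St.H (e : St) : ℤ := if e.up then e.E - e.A else e.A - e.E

/-- distance from the running extremum -/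
def St.D (e : St) : ℤ := if e.up then e.E - e.C else e.C - e.E

/-- one step of the machine, `δ` is the move of the path; frozen when the height is `≥ R` -/
def step (m R : ℕ) (δ : ℤ) (e : St) : St :=
  if (R : ℤ) ≤ e.H then e else
  if e.up then
    if e.E < e.C + δ then ⟨true, e.A, e.C + δ, e.C + δ⟩
    else if (m : ℤ) ≤ e.E - (e.C + δ) then ⟨false, e.E, e.C + δ, e.C + δ⟩
    else ⟨true, e.A, e.E, e.C + δ⟩
  else
    if e.C + δ < e.E then ⟨false, e.A, e.C + δ, e.C + δ⟩
    else if (m : ℤ) ≤ (e.C + δ) - e.E then ⟨true, e.E, e.C + δ, e.C + δ⟩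
    else ⟨false, e.A, e.E, e.C + δ⟩

/-- the reflected state -/
def St.neg (e : St) : St := ⟨!e.up, -e.A, -e.E, -e.C⟩

lemma H_neg (e : St) : e.neg.H = e.H := by
  rcases e with ⟨up, A, E, C⟩
  cases up <;> simp [St.H, St.neg] <;> ring

lemma D_neg (e : St) : e.neg.D = e.D := by
  rcases e with ⟨up, A, E, C⟩
  cases up <;> simp [St.D, St.neg] <;> ring

lemma step_neg (m R : ℕ) (δ : ℤ) (e : St) : step m R (-δ) e.neg = (step m R δ e).neg := by
  unfold step
  rw [H_neg]
  rcases e with ⟨up, A, E, C⟩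
  cases up
  · simp only [St.neg]
    split_ifs <;> first | (simp at *; omega) | (simp; try ring_nf)
    all_goals simp_all
  · simp only [St.neg]
    split_ifs <;> first | (simp at *; omega) | (simp; try ring_nf)
    all_goals simp_all

/-- invariant of the states -/
def Good (m R : ℕ) (e : St) : Prop :=
  (R : ℤ) ≤ e.H ∨ ((m : ℤ) ≤ e.H ∧ 0 ≤ e.D ∧ e.D < m)

lemma good_neg (m R : ℕ) (e : St) (h : Good m R e) : Good m R e.neg := by
  unfold Good at *
  rw [H_neg, D_neg]
  exact h

lemma good_step (m R : ℕ) (hm : 1 ≤ m) (δ : ℤ) (e : St) (h : Good m R e) :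
    Good m R (step m R δ e) := by
  unfold step
  by_cases h1 : (R : ℤ) ≤ e.H
  · rw [if_pos h1]; exact h
  · rw [if_neg h1]
    have h2 := h.resolve_left h1
    rcases e with ⟨up, A, E, C⟩
    cases up
    · simp only [St.H, St.D, Bool.false_eq_true, if_false] at h1 h2 ⊢
      split_ifs
      all_goals
        right
        simp only [St.H, St.D, Bool.false_eq_true, if_false, if_true]
        omega
    · simp only [St.H, St.D, if_true] at h1 h2 ⊢
      split_ifs
      all_goals
        right
        simp only [St.H, St.D, Bool.false_eq_true, if_false, if_true]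
        omega

lemma step_frozen (m R : ℕ) (δ : ℤ) (e : St) (h : (R : ℤ) ≤ e.H) : step m R δ e = e := by
  unfold step
  rw [if_pos h]

lemma step_C (m R : ℕ) (δ : ℤ) (e : St) (h : ¬ (R : ℤ) ≤ e.H) : (step m R δ e).C = e.C + δ := by
  unfold step
  rw [if_neg h]
  split_ifs <;> rfl

lemma not_failed {m R : ℕ} {C : ℕ → ℤ} {S : ℕ → St}
    (hS : ∀ u, S (u + 1) = step m R (C (u + 1) - C u) (S u)) {t : ℕ}
    (ht : ¬ (R : ℤ) ≤ (S t).H) (u : ℕ) (hu : u ≤ t) : ¬ (R : ℤ) ≤ (S u).H := by
  intro hcon
  apply ht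
  have : ∀ v, u ≤ v → S v = S u := by
    intro v hv
    induction v, hv using Nat.le_induction with
    | base => rfl
    | succ v hv ih =>
      rw [hS v, ih]
      exact step_frozen _ _ _ _ hcon
  rw [this t hu]
  exact hcon

lemma track {m R : ℕ} {C : ℕ → ℤ} {S : ℕ → St}
    (hS : ∀ u, S (u + 1) = step m R (C (u + 1) - C u) (S u)) (h0 : (S 0).C = C 0) {t : ℕ}
    (ht : ¬ (R : ℤ) ≤ (S t).H) : ∀ u, u ≤ t → (S u).C = C u := by
  intro u
  induction u with
  | zero => intro _; exact h0
  | succ u ih =>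
    intro hu
    rw [hS u, step_C _ _ _ _ (not_failed hS ht u (by omega)), ih (by omega)]
    ring

/-- A rise of height `≥ R` without drawdown `≥ m` makes the machine fail. -/
lemma rise (m R : ℕ) (hm : 1 ≤ m) (_hR : m < R) (C : ℕ → ℤ) (S : ℕ → St)
    (hS : ∀ u, S (u + 1) = step m R (C (u + 1) - C u) (S u)) (h0 : (S 0).C = C 0)
    (hg : Good m R (S 0)) (t : ℕ) (ht : ¬ (R : ℤ) ≤ (S t).H) (s s' : ℕ) (hss : s ≤ s')
    (hst : s' ≤ t) (hrise : (R : ℤ) ≤ C s' - C s) :
    ∃ u v, s ≤ u ∧ u ≤ v ∧ v ≤ s' ∧ (m : ℤ) ≤ C u - C v := by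
  by_contra hcon
  push Not at hcon
  have hnf := not_failed hS ht
  have htr := track hS h0 ht
  have hgood : ∀ u, Good m R (S u) := by
    intro u
    induction u with
    | zero => exact hg
    | succ u ih => rw [hS u]; exact good_step m R hm _ _ ih
  have hgood' : ∀ u, u ≤ t → ((m : ℤ) ≤ (S u).H ∧ 0 ≤ (S u).D ∧ (S u).D < m) :=
    fun u hu => (hgood u).resolve_left (hnf u hu)
  have hQ : ∀ u, s ≤ u → u ≤ s' →
      ((S u).up = true ∧ (S u).A ≤ C s ∧
        ((∃ v, s ≤ v ∧ v ≤ u ∧ C v = (S u).E) ∨ (S u).E < C s + m)) ∨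
      ((S u).up = false ∧ (S u).E ≤ C s) := by
    intro u hu
    induction u, hu using Nat.le_induction with
    | base =>
      intro _
      have h1 := hgood' s (by omega)
      have h2 := htr s (by omega)
      generalize S s = e at h1 h2
      rcases e with ⟨up, A, E, c⟩
      cases up
      · right
        simp only [St.H, St.D, Bool.false_eq_true, if_false] at h1 h2 ⊢
        refine ⟨trivial, ?_⟩
        omega
      · left
        simp only [St.H, St.D, if_true] at h1 h2 ⊢
        refine ⟨trivial, by omega, Or.inr (by omega)⟩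
    | succ u hu ih =>
      intro hu'
      have ih' := ih (by omega)
      have h1 := hgood' u (by omega)
      have h2 := htr u (by omega)
      have h3 := hnf u (by omega)
      have h4 := hS u
      have h5 := hcon
      rw [h4]
      generalize S u = e at h1 h2 h3 ih'
      unfold step
      rw [if_neg h3]
      rcases e with ⟨up, A, E, c⟩
      cases up
      · simp only [St.H, St.D, Bool.false_eq_true, if_false] at h1 h2 h3 ih' ⊢
        have ihE : E ≤ C s := by
          rcases ih' with h | h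
          · exact absurd h.1 (by simp)
          · exact h.2
        split_ifs with h6 h7
        · right
          simp only
          refine ⟨trivial, ?_⟩
          omega
        · left
          simp only
          refine ⟨trivial, ihE, Or.inl ⟨u + 1, by omega, le_rfl, ?_⟩⟩
          omega
        · right
          simp only
          exact ⟨trivial, ihE⟩
      · simp only [St.H, St.D, if_true] at h1 h2 h3 ih' ⊢
        have ih2 : A ≤ C s ∧ ((∃ v, s ≤ v ∧ v ≤ u ∧ C v = E) ∨ E < C s + m) := by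
          rcases ih' with h | h
          · exact h.2
          · exact absurd h.1 (by simp)
        split_ifs with h6 h7
        · left
          simp only
          refine ⟨trivial, ih2.1, Or.inl ⟨u + 1, by omega, le_rfl, ?_⟩⟩
          omega
        · right
          simp only
          refine ⟨trivial, ?_⟩
          rcases ih2.2 with ⟨v, hv1, hv2, hv3⟩ | h8
          · exfalso
            have := hcon v (u + 1) hv1 (by omega) hu'
            omega
          · omega
        · left
          simp only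
          refine ⟨trivial, ih2.1, ?_⟩
          rcases ih2.2 with ⟨v, hv1, hv2, hv3⟩ | h8
          · exact Or.inl ⟨v, hv1, by omega, hv3⟩
          · exact Or.inr h8
  have h1 := hQ s' hss le_rfl
  have h2 := hgood' s' hst
  have h3 := htr s' hst
  have h4 := hnf s' hst
  generalize S s' = e at h1 h2 h3 h4
  rcases e with ⟨up, A, E, c⟩
  cases up
  · simp only [St.H, St.D, Bool.false_eq_true, if_false] at h1 h2 h3 h4
    rcases h1 with h | h
    · exact absurd h.1 (by simp)
    · omega
  · simp only [St.H, St.D, if_true] at h1 h2 h3 h4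
    rcases h1 with h | h
    · omega
    · exact absurd h.1 (by simp)

lemma fall (m R : ℕ) (hm : 1 ≤ m) (hR : m < R) (C : ℕ → ℤ) (S : ℕ → St)
    (hS : ∀ u, S (u + 1) = step m R (C (u + 1) - C u) (S u)) (h0 : (S 0).C = C 0)
    (hg : Good m R (S 0)) (t : ℕ) (ht : ¬ (R : ℤ) ≤ (S t).H) (s s' : ℕ) (hss : s ≤ s')
    (hst : s' ≤ t) (hfall : (R : ℤ) ≤ C s - C s') :
    ∃ u v, s ≤ u ∧ u ≤ v ∧ v ≤ s' ∧ (m : ℤ) ≤ C v - C u := by
  obtain ⟨u, v, h1, h2, h3, h4⟩ := rise m R hm hR (fun u => - C u) (fun u => (S u).neg)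
    (by
      intro u
      have : (fun u => - C u) (u + 1) - (fun u => - C u) u = -(C (u + 1) - C u) := by
        simp only; ring
      rw [this, step_neg, hS u])
    (by simp only [St.neg]; rw [h0])
    (good_neg m R _ hg) t (by rw [H_neg]; exact ht) s s' hss hst (by omega)
  exact ⟨u, v, h1, h2, h3, by omega⟩

/-! ## The potential -/

/-- the numbers `γ_n` -/
noncomputable def gam (θ : ℝ) (m : ℕ) (n : ℕ) : ℝ :=
  1 - θ / (1 - θ) * ((1 + (1 - θ) / m) ^ n - 1)

lemma gam_zero (θ : ℝ) (m : ℕ) : gam θ m 0 = 1 := by simp [gam]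

lemma gam_succ (θ : ℝ) (m n : ℕ) (hm : 1 ≤ m) (hθ1 : θ < 1) :
    gam θ m (n + 1) = (1 + (1 - θ) / m) * gam θ m n - 1 / m := by
  have h1 : (1 - θ) ≠ 0 := by linarith
  have h2 : (m : ℝ) ≠ 0 := by positivity
  unfold gam
  rw [pow_succ]
  field_simp
  ring

lemma gam_le_one (θ : ℝ) (m n : ℕ) (hθ0 : 0 ≤ θ) (hθ1 : θ < 1) : gam θ m n ≤ 1 := by
  unfold gam
  have h1 : 0 < 1 - θ := by linarith
  have h2 : 1 ≤ (1 + (1 - θ) / (m : ℝ)) ^ n := by
    apply one_le_pow₀
    have : 0 ≤ (1 - θ) / (m : ℝ) := by positivity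
    linarith
  have h3 : 0 ≤ θ / (1 - θ) * ((1 + (1 - θ) / (m : ℝ)) ^ n - 1) :=
    mul_nonneg (by positivity) (by linarith)
  linarith

lemma gam_end (θ : ℝ) (m N : ℕ) (hm : 1 ≤ m)
    (hθ : θ = 2 * ((1 + 1 / (m : ℝ)) ^ N)⁻¹) (hθ1 : θ < 1)
    (hθ2 : (N : ℝ) * θ ≤ (m + 1) / 2) : gam θ m N ≤ 0 := by
  have hm0 : (0 : ℝ) < m := by exact_mod_cast hm
  have hpow : 0 < (1 + 1 / (m : ℝ)) ^ N := by positivity
  have hθ0 : 0 < θ := by rw [hθ]; positivity
  have h1 : 0 < 1 - θ := by linarith
  have h2 : (1 + (1 - θ) / (m : ℝ)) = (1 + 1 / (m : ℝ)) * (1 - θ / (m + 1)) := by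
    field_simp
    ring
  have h3 : 1 / 2 ≤ (1 - θ / ((m : ℝ) + 1)) ^ N := by
    have h4 := one_add_mul_le_pow (a := -(θ / ((m : ℝ) + 1)))
      (by
        have : θ / ((m : ℝ) + 1) ≤ 1 := by
          rw [div_le_one (by positivity)]; linarith
        linarith) N
    have h5 : (N : ℝ) * (θ / ((m : ℝ) + 1)) ≤ 1 / 2 := by
      rw [← mul_div_assoc, div_le_iff₀ (by positivity)]
      linarith
    have h6 : 1 + -(θ / ((m : ℝ) + 1)) = 1 - θ / (m + 1) := by ring
    rw [h6] at h4
    linarith
  have h7 : 1 ≤ θ * (1 + (1 - θ) / (m : ℝ)) ^ N := by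
    rw [h2, mul_pow]
    calc (1 : ℝ) = θ * ((1 + 1 / (m : ℝ)) ^ N * (1 / 2)) := by
          rw [hθ]; field_simp
      _ ≤ θ * ((1 + 1 / (m : ℝ)) ^ N * (1 - θ / ((m : ℝ) + 1)) ^ N) := by
          apply mul_le_mul_of_nonneg_left _ hθ0.le
          exact mul_le_mul_of_nonneg_left h3 hpow.le
  unfold gam
  have h8 : 1 ≤ θ / (1 - θ) * ((1 + (1 - θ) / (m : ℝ)) ^ N - 1) := by
    rw [div_mul_eq_mul_div, le_div_iff₀ h1]
    linarith
  linarith

/-- the potential inside a leg -/
noncomputable def phi (θs g m D : ℝ) : ℝ := g + (1 - g) * D / m + 7 * θs * g * D * (m - D)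

lemma phi_zero (θs g m : ℝ) : phi θs g m 0 = g := by simp [phi]

lemma phi_m (θs g m : ℝ) (hm : m ≠ 0) : phi θs g m m = 1 := by
  unfold phi; field_simp; ring

/-- the potential as a function of height and distance -/
noncomputable def f (θ : ℝ) (m R : ℕ) (H D : ℤ) : ℝ :=
  if (R : ℤ) ≤ H then 0 else
    max 0 (phi (θ / (7 * m * (m + 1))) (gam θ m (H - m).toNat) m D)

lemma f_nonneg (θ : ℝ) (m R : ℕ) (H D : ℤ) : 0 ≤ f θ m R H D := by
  unfold f
  split_ifs
  · exact le_rfl
  · exact le_max_left _ _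

lemma f_ge (θ : ℝ) (m R : ℕ) (H D : ℤ) (h : ¬ (R : ℤ) ≤ H) :
    phi (θ / (7 * m * (m + 1))) (gam θ m (H - m).toNat) m D ≤ f θ m R H D := by
  unfold f
  rw [if_neg h]
  exact le_max_right _ _

lemma f_le (θ : ℝ) (m R : ℕ) (hm : 1 ≤ m) (hθ0 : 0 ≤ θ) (hθ1 : θ < 1) (H D : ℤ)
    (hD0 : 0 ≤ D) (hDm : D ≤ m) : f θ m R H D ≤ 1 + θ := by
  unfold f
  split_ifs
  · linarith
  · apply max_le (by linarith)
    have hm0 : (0 : ℝ) < m := by exact_mod_cast hm
    have hD0' : (0 : ℝ) ≤ D := by exact_mod_cast hD0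
    have hDm' : (D : ℝ) ≤ m := by exact_mod_cast hDm
    set g := gam θ m (H - m).toNat with hg
    have hg1 : g ≤ 1 := gam_le_one θ m _ hθ0 hθ1
    set d := (D : ℝ) / m with hd
    have hd0 : 0 ≤ d := by positivity
    have hd1 : d ≤ 1 := by rw [hd, div_le_one hm0]; exact hDm'
    have h1 : phi (θ / (7 * m * (m + 1))) g m D =
        g + (1 - g) * d + g * (θ * ((D : ℝ) * (m - D) / (m * (m + 1)))) := by
      unfold phi
      rw [hd]
      field_simp
    rw [h1]
    set e := (D : ℝ) * (m - D) / (m * (m + 1)) with he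
    have he0 : 0 ≤ e := by
      rw [he]
      apply div_nonneg (mul_nonneg hD0' (by linarith)) (by positivity)
    have he1 : e ≤ 1 := by
      rw [he, div_le_one (by positivity)]
      nlinarith
    rcases le_or_gt 0 g with h | h
    · have h2 : g * (θ * e) ≤ 1 * (θ * 1) := by
        apply mul_le_mul hg1 _ (by positivity) (by norm_num)
        exact mul_le_mul_of_nonneg_left he1 hθ0
      nlinarith
    · have h2 : g * (θ * e) ≤ 0 := mul_nonpos_of_nonpos_of_nonneg h.le (by positivity)
      nlinarith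

lemma onestep (θ : ℝ) (m R : ℕ) (hm : 1 ≤ m) (hR : m < R) (hθ0 : 0 ≤ θ) (hθ1 : θ < 1)
    (hend : gam θ m (R - m) ≤ 0) (H D : ℤ) (hH : (m : ℤ) ≤ H) (hHR : ¬ (R : ℤ) ≤ H)
    (hD0 : 0 ≤ D) (hDm : D < m) :
    (1 - θ / (7 * m * (m + 1))) * f θ m R H D ≤
      ((if D = 0 then f θ m R (H + 1) 0 else f θ m R H (D - 1)) +
        (if D + 1 = m then f θ m R m 0 else f θ m R H (D + 1)) + 12 * f θ m R H D) / 14 := by
  have hm0 : (0 : ℝ) < m := by exact_mod_cast hm
  set θs := θ / (7 * m * (m + 1)) with hθs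
  have hθs0 : 0 ≤ θs := by positivity
  set g := gam θ m (H - m).toNat with hg
  have hg1 : g ≤ 1 := gam_le_one θ m _ hθ0 hθ1
  have hbwd : phi θs g m (D + 1) ≤
      (if D + 1 = m then f θ m R m 0 else f θ m R H (D + 1)) := by
    split_ifs with h1
    · have h2 : ((D : ℝ) + 1) = m := by exact_mod_cast h1
      rw [h2, phi_m _ _ _ hm0.ne']
      have h3 := f_ge θ m R m 0 (by omega)
      rw [Int.cast_zero, phi_zero] at h3
      have h4 : ((m : ℤ) - m).toNat = 0 := by simp
      rw [h4, gam_zero] at h3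
      exact h3
    · have h3 := f_ge θ m R H (D + 1) hHR
      push_cast at h3
      exact h3
  have hfwd0 : 0 ≤ (if D = 0 then f θ m R (H + 1) 0 else f θ m R H (D - 1)) := by
    split_ifs <;> exact f_nonneg _ _ _ _ _
  have hbwd0 : 0 ≤ (if D + 1 = m then f θ m R m 0 else f θ m R H (D + 1)) := by
    split_ifs <;> exact f_nonneg _ _ _ _ _
  set bw := (if D + 1 = m then f θ m R m 0 else f θ m R H (D + 1)) with hbw
  have hf : f θ m R H D = max 0 (phi θs g m D) := by
    unfold f
    rw [if_neg hHR]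
  rcases le_or_gt (phi θs g m D) 0 with hneg | hpos
  · rw [hf, max_eq_left hneg]
    simp only [mul_zero, add_zero]
    positivity
  · rw [hf, max_eq_right hpos.le]
    rcases eq_or_ne D 0 with h0 | h0
    · rw [if_pos h0]
      subst h0
      simp only [Int.cast_zero, zero_add] at hbwd hpos ⊢
      rw [phi_zero] at hpos ⊢
      have hfw : (1 + (1 - θ) / m) * g - 1 / m ≤ f θ m R (H + 1) 0 := by
        rw [hg, ← gam_succ θ m _ hm hθ1]
        have h2 : (H + 1 - m).toNat = (H - m).toNat + 1 := by omega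
        by_cases h3 : (R : ℤ) ≤ H + 1
        · have h4 : (H - m).toNat + 1 = R - m := by omega
          rw [h4]
          exact hend.trans (f_nonneg _ _ _ _ _)
        · have h4 := f_ge θ m R (H + 1) 0 h3
          rw [Int.cast_zero, phi_zero, h2] at h4
          exact h4
      have h3 : 14 * ((1 - θs) * g) =
          ((1 + (1 - θ) / m) * g - 1 / m) + phi θs g m 1 + 12 * g := by
        unfold phi
        rw [hθs]
        field_simp
        ring
      rw [le_div_iff₀ (by norm_num)]
      linarith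
    · rw [if_neg h0]
      have hfw : phi θs g m (D - 1) ≤ f θ m R H (D - 1) := by
        have h3 := f_ge θ m R H (D - 1) hHR
        push_cast at h3
        exact h3
      have h3 : phi θs g m (D - 1) + phi θs g m (D + 1) = 2 * phi θs g m D - 14 * θs * g := by
        unfold phi
        field_simp
        ring
      have h4 : g ≤ phi θs g m D := by
        rcases le_or_gt 0 g with h | h
        · unfold phi
          have hD0' : (0 : ℝ) ≤ D := by exact_mod_cast hD0
          have hDm' : (D : ℝ) ≤ m := by exact_mod_cast hDm.le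
          have h5 : 0 ≤ (1 - g) * D / m :=
            div_nonneg (mul_nonneg (by linarith) hD0') hm0.le
          have h6 : 0 ≤ 7 * θs * g * D * (m - D) :=
            mul_nonneg (by positivity) (by linarith)
          linarith
        · linarith
      have h5 : θs * g ≤ θs * phi θs g m D := mul_le_mul_of_nonneg_left h4 hθs0
      rw [le_div_iff₀ (by norm_num)]
      nlinarith

lemma sum_mv (G : ℤ → ℝ) : ∑ a : Slot, G (mv a) = G 1 + G (-1) + 12 * G 0 := by
  rw [Fintype.sum_prod_type]
  simp [Fin.sum_univ_succ, mv]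
  ring

/-- the potential of a state -/
noncomputable def F (θ : ℝ) (m R : ℕ) (e : St) : ℝ := f θ m R e.H e.D

lemma step_up (m R : ℕ) (δ A E C : ℤ) (h : ¬ (R : ℤ) ≤ E - A) :
    step m R δ ⟨true, A, E, C⟩ =
      if E < C + δ then ⟨true, A, C + δ, C + δ⟩
      else if (m : ℤ) ≤ E - (C + δ) then ⟨false, E, C + δ, C + δ⟩
      else ⟨true, A, E, C + δ⟩ := by
  unfold step
  rw [if_neg (by simpa [St.H] using h)]
  simp only [if_true]

lemma step_down (m R : ℕ) (δ A E C : ℤ) (h : ¬ (R : ℤ) ≤ A - E) :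
    step m R δ ⟨false, A, E, C⟩ =
      if C + δ < E then ⟨false, A, C + δ, C + δ⟩
      else if (m : ℤ) ≤ (C + δ) - E then ⟨true, E, C + δ, C + δ⟩
      else ⟨false, A, E, C + δ⟩ := by
  unfold step
  rw [if_neg (by simpa [St.H] using h)]
  simp only [Bool.false_eq_true, if_false]

lemma F_up (θ : ℝ) (m R : ℕ) (A E C : ℤ) :
    F θ m R ⟨true, A, E, C⟩ = f θ m R (E - A) (E - C) := by
  simp [F, St.H, St.D]

lemma F_down (θ : ℝ) (m R : ℕ) (A E C : ℤ) :
    F θ m R ⟨false, A, E, C⟩ = f θ m R (A - E) (C - E) := by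
  simp [F, St.H, St.D]

lemma F_step (θ : ℝ) (m R : ℕ) (hm : 1 ≤ m) (hR : m < R) (hθ0 : 0 ≤ θ) (hθ1 : θ < 1)
    (hend : gam θ m (R - m) ≤ 0) (e : St) (he : Good m R e) :
    (1 - θ / (7 * m * (m + 1))) * F θ m R e ≤
      (∑ a : Slot, F θ m R (step m R (mv a) e)) / 14 := by
  rw [sum_mv (fun δ => F θ m R (step m R δ e))]
  by_cases h1 : (R : ℤ) ≤ e.H
  · simp only [step_frozen m R _ e h1]
    have : F θ m R e = 0 := by
      unfold F f
      rw [if_pos h1]
    rw [this]
    simp
  · have h2 := he.resolve_left h1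
    have key := onestep θ m R hm hR hθ0 hθ1 hend e.H e.D h2.1 h1 h2.2.1 h2.2.2
    rcases e with ⟨up, A, E, C⟩
    cases up
    · simp only [St.H, St.D, Bool.false_eq_true, if_false] at h1 h2 key
      have e0 : F θ m R (step m R 0 ⟨false, A, E, C⟩) = f θ m R (A - E) (C - E) := by
        rw [step_down m R _ _ _ _ h1, if_neg (by omega), if_neg (by omega), F_down]
        congr 1; omega
      have e1 : F θ m R (step m R (-1) ⟨false, A, E, C⟩) =
          (if C - E = 0 then f θ m R (A - E + 1) 0 else f θ m R (A - E) (C - E - 1)) := by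
        rw [step_down m R _ _ _ _ h1]
        by_cases h3 : C - E = 0
        · rw [if_pos h3, if_pos (by omega), F_down]
          congr 1 <;> omega
        · rw [if_neg h3, if_neg (by omega), if_neg (by omega), F_down]
          congr 1; omega
      have e2 : F θ m R (step m R 1 ⟨false, A, E, C⟩) =
          (if C - E + 1 = m then f θ m R m 0 else f θ m R (A - E) (C - E + 1)) := by
        rw [step_down m R _ _ _ _ h1, if_neg (by omega)]
        by_cases h3 : C - E + 1 = m
        · rw [if_pos h3, if_pos (by omega), F_up]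
          congr 1 <;> omega
        · rw [if_neg h3, if_neg (by omega), F_down]
          congr 1; omega
      rw [e0, e1, e2, F_down]
      linarith
    · simp only [St.H, St.D, if_true] at h1 h2 key
      have e0 : F θ m R (step m R 0 ⟨true, A, E, C⟩) = f θ m R (E - A) (E - C) := by
        rw [step_up m R _ _ _ _ h1, if_neg (by omega), if_neg (by omega), F_up]
        congr 1; omega
      have e1 : F θ m R (step m R 1 ⟨true, A, E, C⟩) =
          (if E - C = 0 then f θ m R (E - A + 1) 0 else f θ m R (E - A) (E - C - 1)) := by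
        rw [step_up m R _ _ _ _ h1]
        by_cases h3 : E - C = 0
        · rw [if_pos h3, if_pos (by omega), F_up]
          congr 1 <;> omega
        · rw [if_neg h3, if_neg (by omega), if_neg (by omega), F_up]
          congr 1; omega
      have e2 : F θ m R (step m R (-1) ⟨true, A, E, C⟩) =
          (if E - C + 1 = m then f θ m R m 0 else f θ m R (E - A) (E - C + 1)) := by
        rw [step_up m R _ _ _ _ h1, if_neg (by omega)]
        by_cases h3 : E - C + 1 = m
        · rw [if_pos h3, if_pos (by omega), F_down]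
          congr 1 <;> omega
        · rw [if_neg h3, if_neg (by omega), F_up]
          congr 1; omega
      rw [e0, e1, e2, F_up]
      linarith

end B2

theorem leg_survive (m R : ℕ) (hm : 1 ≤ m) (hR : m < R) (θ : ℝ)
    (hθ : θ = 2 * ((1 + 1 / (m : ℝ)) ^ (R - m))⁻¹) (hθ1 : θ < 1)
    (hθ2 : ((R - m : ℕ) : ℝ) * θ ≤ (m + 1) / 2) (t : ℕ) :
    (1 - θ / (7 * m * (m + 1))) ^ t / (1 + θ) ≤
    Pr t (fun w => ∀ s s', s ≤ s' → s' ≤ t →
      ((R : ℤ) ≤ cur w s' - cur w s →
        ∃ u v, s ≤ u ∧ u ≤ v ∧ v ≤ s' ∧ (m : ℤ) ≤ cur w u - cur w v) ∧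
      ((R : ℤ) ≤ cur w s - cur w s' →
        ∃ u v, s ≤ u ∧ u ≤ v ∧ v ≤ s' ∧ (m : ℤ) ≤ cur w v - cur w u)) := by
  have hm0 : (0 : ℝ) < m := by exact_mod_cast hm
  have hθ0 : 0 < θ := by rw [hθ]; positivity
  have hend := B2.gam_end θ m (R - m) hm hθ hθ1 hθ2
  set θs := θ / (7 * m * (m + 1)) with hθs
  have hc : 0 ≤ 1 - θs := by
    have : θs ≤ 1 := by
      rw [hθs, div_le_one (by positivity)]
      have hm1 : (1 : ℝ) ≤ m := by exact_mod_cast hm
      nlinarith
    linarith
  set st : Slot → B2.St → B2.St := fun a e => B2.step m R (mv a) e with hst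
  set d : B2.St := ⟨true, -m, 0, 0⟩ with hd
  have hgd : B2.Good m R d := by
    right
    simp only [hd, B2.St.H, B2.St.D, if_true]
    omega
  have hdH : ¬ (R : ℤ) ≤ d.H := by
    simp only [hd, B2.St.H, if_true]
    omega
  have hgood : ∀ (w : ℕ → Slot) (s : ℕ), B2.Good m R (run st d w s) :=
    fun w s => run_inv hgd (fun a e he => B2.good_step m R hm _ e he) s
  have h1 := Ex_run_ge st d (B2.Good m R) hgd
    (fun a e he => B2.good_step m R hm _ e he) (B2.F θ m R) (1 - θs) hc
    (fun e he => B2.F_step θ m R hm hR hθ0.le hθ1 hend e he) t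
  have h2 : B2.F θ m R d = 1 := by
    unfold B2.F B2.f
    rw [if_neg hdH]
    have h3 : (d.H - m).toNat = 0 := by
      simp only [hd, B2.St.H, if_true]
      omega
    have h4 : d.D = 0 := by simp [hd, B2.St.D]
    rw [h3, h4, Int.cast_zero, B2.phi_zero, B2.gam_zero]
    norm_num
  rw [h2, mul_one] at h1
  rw [div_le_iff₀ (by linarith), mul_comm]
  refine h1.trans ?_
  unfold Pr
  rw [← Ex_mul_left]
  refine Ex_mono fun w => ?_
  set e := run st d w t with he
  by_cases hfail : (R : ℤ) ≤ e.H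
  · have h3 : B2.F θ m R e = 0 := by
      unfold B2.F B2.f
      rw [if_pos hfail]
    rw [h3]
    split_ifs <;> simp <;> linarith
  · have h3 : B2.F θ m R e ≤ 1 + θ := by
      have h4 := (hgood w t).resolve_left hfail
      exact B2.f_le θ m R hm hθ0.le hθ1 _ _ h4.2.1 h4.2.2.le
    have hS : ∀ u, run st d w (u + 1) =
        B2.step m R (cur w (u + 1) - cur w u) (run st d w u) := by
      intro u
      rw [cur_succ, add_sub_cancel_left]
      rfl
    have h0 : (run st d w 0).C = cur w 0 := by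
      rw [cur_zero]
      rfl
    rw [if_pos, mul_one]
    · exact h3
    · intro s s' hss hst'
      exact ⟨fun h => B2.rise m R hm hR (cur w) (run st d w) hS h0 (hgood w 0) t hfail s s' hss
          hst' h,
        fun h => B2.fall m R hm hR (cur w) (run st d w) hS h0 (hgood w 0) t hfail s s' hss
          hst' h⟩

end Pool.Agent.Helper55.PC
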